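import Pool.Agent.V7H41.CD.Spec

set_option autoImplicit false

open Finset
open scoped Classical

namespace Pool.Agent.V7H41.CD

open Pool.Agent.V7H41.CC

variable {n : ℕ}

/-- leaves `L` which are free once the classes `B` and `B'` are dissolved -/
def Cell (T F : PhyloTree n) (Q : Finset (Finset (Fin n))) (B B' L : Finset (Fin n)) : Prop :=
  B ∈ Q ∧ B' ∈ Q ∧ (∀ A ∈ Q, Disjoint A L) ∧
    (∀ D, D ⊆ L → ∀ C ∈ Q, C ≠ B → Disjoint (T.span D) (T.span C)) ∧
    (∀ D, D ⊆ L → ∀ C ∈ Q, C ≠ B' → Disjoint (F.span D) (F.span C))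

theorem fam_card {T F : PhyloTree n} {m : ℕ} {Q : Finset (Finset (Fin n))}
    (hQ : IsFam T F m Q) : Q.card ≤ m := by
  have h1 : ∑ A ∈ Q, 1 ≤ ∑ A ∈ Q, (A.card - 1) := sum_le_sum fun A hA => by
    have := hQ.1 A hA
    omega
  rw [sum_const, smul_eq_mul, mul_one, hQ.2.1] at h1
  exact h1

theorem fam_union {T F : PhyloTree n} {m : ℕ} {Q : Finset (Finset (Fin n))}
    (hQ : IsFam T F m Q) : (Q.biUnion id).card ≤ 2 * m := by
  have h1 : (Q.biUnion id).card ≤ ∑ A ∈ Q, A.card := card_biUnion_le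
  have h2 : ∑ A ∈ Q, A.card ≤ ∑ A ∈ Q, 2 * (A.card - 1) := sum_le_sum fun A hA => by
    have := hQ.1 A hA
    omega
  rw [← mul_sum, hQ.2.1] at h2
  exact h1.trans h2

theorem exists_cell (hN : S_NEAR) (T F : PhyloTree n) (m : ℕ) (hm : 1 ≤ m)
    (Q : Finset (Finset (Fin n))) (hQ : IsFam T F m Q) :
    ∃ B B' L, Cell T F Q B B' L ∧ n ≤ m ^ 2 * L.card + 2 * m := by
  have hne : Q.Nonempty := by
    rw [Finset.nonempty_iff_ne_empty]
    rintro rfl
    have := hQ.2.1
    simp at this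
    omega
  have hpos : ∀ A ∈ Q, A.Nonempty := fun A hA => card_pos.1 (by have := hQ.1 A hA; omega)
  obtain ⟨f, hf1, hf2⟩ := hN n T Q hne hpos fun A hA B hB h => (hQ.2.2 A hA B hB h).1
  obtain ⟨g, hg1, hg2⟩ := hN n F Q hne hpos fun A hA B hB h => (hQ.2.2 A hA B hB h).2
  let W : Finset (Fin n) := univ \ Q.biUnion id
  have hW : n ≤ W.card + 2 * m := by
    have h1 := card_sdiff_add_card_eq_card (subset_univ (Q.biUnion id))
    rw [card_univ, Fintype.card_fin] at h1
    have h2 := fam_union hQ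
    change n ≤ (univ \ Q.biUnion id).card + 2 * m
    omega
  obtain ⟨p, hp, hmax⟩ := exists_max_image (Q ×ˢ Q)
    (fun p => (W.filter fun z => (f z, g z) = p).card) (hne.product hne)
  have h3 : W.card = ∑ p ∈ Q ×ˢ Q, (W.filter fun z => (f z, g z) = p).card :=
    card_eq_sum_card_fiberwise fun z _ => by
      rw [mem_coe, mem_product]
      exact ⟨hf1 z, hg1 z⟩
  have h4 : W.card ≤ (Q ×ˢ Q).card * (W.filter fun z => (f z, g z) = p).card := by
    rw [h3]
    have := sum_le_card_nsmul (Q ×ˢ Q) (fun p => (W.filter fun z => (f z, g z) = p).card)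
      (W.filter fun z => (f z, g z) = p).card hmax
    simpa using this
  have h5 : (Q ×ˢ Q).card ≤ m ^ 2 := by
    rw [card_product, sq]
    exact Nat.mul_le_mul (fam_card hQ) (fam_card hQ)
  have hp' := mem_product.1 hp
  refine ⟨p.1, p.2, W.filter fun z => (f z, g z) = p, ⟨hp'.1, hp'.2, ?_, ?_, ?_⟩, ?_⟩
  · intro A hA
    rw [Finset.disjoint_left]
    intro x hx hx'
    have h6 := (mem_sdiff.1 (mem_filter.1 hx').1).2
    exact h6 (mem_biUnion.2 ⟨A, hA, hx⟩)
  · intro D hD C hC hne'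
    exact hf2 p.1 D (fun z hz => by
      have := (mem_filter.1 (hD hz)).2
      exact congrArg Prod.fst this) C hC hne'
  · intro D hD C hC hne'
    exact hg2 p.2 D (fun z hz => by
      have := (mem_filter.1 (hD hz)).2
      exact congrArg Prod.snd this) C hC hne'
  · have h6 := h4.trans (Nat.mul_le_mul_right _ h5)
    omega

/-- the excess of the classes `B` and `B'` -/
def ex (B B' : Finset (Fin n)) : ℕ := ∑ A ∈ ({B, B'} : Finset (Finset (Fin n))), (A.card - 1)

theorem ext_disj {T F : PhyloTree n} {Q R : Finset (Finset (Fin n))}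
    {B B' L : Finset (Fin n)} {e : ℕ} (hc : Cell T F Q B B' L)
    (hR : IsTF T F e R ∧ ∀ A ∈ R, A ⊆ L) : Disjoint Q R := by
  rw [Finset.disjoint_left]
  intro A hA hA'
  have h1 := hc.2.2.1 A hA
  have h2 := hR.2 A hA'
  have h3 := hR.1.2.1 A hA'
  have h4 : A = ∅ := by
    have := h1.mono_right h2
    rwa [disjoint_self, Finset.bot_eq_empty] at this
  rw [h4] at h3
  simp at h3

theorem ext_fam {T F : PhyloTree n} {m : ℕ} {Q R : Finset (Finset (Fin n))}
    {B B' L : Finset (Fin n)} (hQ : IsFam T F m Q) (hc : Cell T F Q B B' L)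
    (hR : IsTF T F (ex B B' + 1) R ∧ ∀ A ∈ R, A ⊆ L) :
    IsFam T F (m + 1) ((Q \ {B, B'}) ∪ R) := by
  have hd : Disjoint Q R := ext_disj hc hR
  have hsub : ({B, B'} : Finset (Finset (Fin n))) ⊆ Q := by
    intro A hA
    rw [mem_insert, mem_singleton] at hA
    rcases hA with rfl | rfl
    · exact hc.1
    · exact hc.2.1
  refine ⟨?_, ?_, ?_⟩
  · intro A hA
    rcases mem_union.1 hA with h | h
    · exact hQ.1 A (mem_sdiff.1 h).1
    · exact (hR.1.2.1 A h).ge
  · rw [sum_union (hd.mono_left sdiff_subset)]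
    have h1 := sum_sdiff (f := fun A : Finset (Fin n) => A.card - 1) hsub
    rw [hQ.2.1] at h1
    have h2 : ∑ A ∈ R, (A.card - 1) = ex B B' + 1 := by
      rw [sum_congr rfl fun A hA => show A.card - 1 = 1 by rw [hR.1.2.1 A hA], sum_const,
        smul_eq_mul, mul_one, hR.1.1]
    rw [h2]
    unfold ex
    omega
  · intro A hA A' hA' hne
    rcases mem_union.1 hA with h | h <;> rcases mem_union.1 hA' with h' | h'
    · exact hQ.2.2 A (mem_sdiff.1 h).1 A' (mem_sdiff.1 h').1 hne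
    · have h1 := mem_sdiff.1 h
      rw [mem_insert, mem_singleton, not_or] at h1
      exact ⟨(hc.2.2.2.1 A' (hR.2 A' h') A h1.1 h1.2.1).symm,
        (hc.2.2.2.2 A' (hR.2 A' h') A h1.1 h1.2.2).symm⟩
    · have h1 := mem_sdiff.1 h'
      rw [mem_insert, mem_singleton, not_or] at h1
      exact ⟨hc.2.2.2.1 A (hR.2 A h) A' h1.1 h1.2.1, hc.2.2.2.2 A (hR.2 A h) A' h1.1 h1.2.2⟩
    · exact hR.1.2.2 A h A' h' hne

/-- the families -/
noncomputable def FQ (T F : PhyloTree n) (m : ℕ) : Finset (Finset (Finset (Fin n))) :=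
  univ.filter fun Q => IsFam T F m Q

theorem count_fixed {T F : PhyloTree n} {m : ℕ} (B B' : Finset (Fin n))
    (S : Finset (Finset (Finset (Fin n)))) (L : Finset (Finset (Fin n)) → Finset (Fin n))
    (hS : ∀ Q ∈ S, IsFam T F m Q ∧ Cell T F Q B B' (L Q)) (M : ℝ)
    (hM : ∀ Q ∈ S, M ≤ {R | IsTF T F (ex B B' + 1) R ∧ ∀ A ∈ R, A ⊆ L Q}.ncard) :
    M * S.card ≤ (FQ T F (m + 1)).card * ((m + 1).choose (ex B B' + 1) : ℝ) := by
  let RR : Finset (Finset (Fin n)) → Finset (Finset (Finset (Fin n))) := fun Q =>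
    univ.filter fun R => IsTF T F (ex B B' + 1) R ∧ ∀ A ∈ R, A ⊆ L Q
  have hRR : ∀ Q, {R | IsTF T F (ex B B' + 1) R ∧ ∀ A ∈ R, A ⊆ L Q}.ncard = (RR Q).card := by
    intro Q
    rw [← Set.ncard_coe_finset]
    congr 1
    ext R
    simp [RR]
  have hinj : (S.sigma fun Q => RR Q).card ≤
      ((FQ T F (m + 1)).sigma fun Q' => powersetCard (ex B B' + 1) Q').card := by
    apply card_le_card_of_injOn
      (fun x : (_ : Finset (Finset (Fin n))) × Finset (Finset (Fin n)) =>
        (⟨(x.1 \ {B, B'}) ∪ x.2, x.2⟩ : (_ : Finset (Finset (Fin n))) × Finset (Finset (Fin n))))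
    · rintro ⟨Q, R⟩ hx
      rw [mem_coe, mem_sigma] at hx
      rw [mem_coe, mem_sigma]
      have h1 := hS Q hx.1
      have h2 := (mem_filter.1 hx.2).2
      exact ⟨mem_filter.2 ⟨mem_univ _, ext_fam h1.1 h1.2 h2⟩,
        mem_powersetCard.2 ⟨subset_union_right, h2.1.1⟩⟩
    · rintro ⟨Q, R⟩ hx ⟨Q', R'⟩ hx' he
      rw [mem_coe, mem_sigma] at hx hx'
      have h1 : (Q \ {B, B'}) ∪ R = (Q' \ {B, B'}) ∪ R' := congrArg Sigma.fst he
      have h2 : R = R' := congrArg
        (fun y : (_ : Finset (Finset (Fin n))) × Finset (Finset (Fin n)) => y.2) he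
      subst h2
      have key : ∀ Q ∈ S, R ∈ RR Q → (((Q \ {B, B'}) ∪ R) \ R) ∪ {B, B'} = Q := by
        intro Q hQ hR
        have h3 := (hS Q hQ).2
        have h4 := ext_disj h3 (mem_filter.1 hR).2
        ext A
        simp only [mem_union, mem_sdiff, mem_insert, mem_singleton]
        constructor
        · rintro (⟨⟨h5, -⟩ | h5, h6⟩ | rfl | rfl)
          · exact h5
          · exact absurd h5 h6
          · exact h3.1
          · exact h3.2.1
        · intro h5
          by_cases h6 : A = B ∨ A = B'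
          · exact Or.inr h6
          · exact Or.inl ⟨Or.inl ⟨h5, h6⟩, Finset.disjoint_left.1 h4 h5⟩
      have h3 : Q = Q' := by
        rw [← key Q hx.1 hx.2, h1, key Q' hx'.1 hx'.2]
      rw [h3]
  rw [card_sigma, card_sigma] at hinj
  have h1 : M * S.card ≤ ((∑ Q ∈ S, (RR Q).card : ℕ) : ℝ) := by
    have := card_nsmul_le_sum S (fun Q => ((RR Q).card : ℝ)) M fun Q hQ => by
      have := hM Q hQ
      rw [hRR] at this
      exact this
    rw [nsmul_eq_mul, mul_comm] at this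
    exact_mod_cast this
  have h2 : ∑ Q' ∈ FQ T F (m + 1), (powersetCard (ex B B' + 1) Q').card ≤
      (FQ T F (m + 1)).card * (m + 1).choose (ex B B' + 1) := by
    have := sum_le_card_nsmul (FQ T F (m + 1)) (fun Q' => (powersetCard (ex B B' + 1) Q').card)
      ((m + 1).choose (ex B B' + 1)) fun Q' hQ' => by
        rw [card_powersetCard]
        exact Nat.choose_le_choose _ (fam_card (mem_filter.1 hQ').2)
    simpa using this
  have h3 : ((∑ Q ∈ S, (RR Q).card : ℕ) : ℝ) ≤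
      (((FQ T F (m + 1)).card * (m + 1).choose (ex B B' + 1) : ℕ) : ℝ) :=
    Nat.cast_le.2 (hinj.trans h2)
  refine h1.trans (h3.trans (le_of_eq ?_))
  push_cast
  ring

/-- the sets which can be `B` or `B'` -/
noncomputable def P2 (n m : ℕ) : Finset (Finset (Fin n)) :=
  univ.filter fun B => 2 ≤ B.card ∧ B.card ≤ m + 1

theorem sum_P2 (m : ℕ) (hn : 1 ≤ n) :
    ∑ B ∈ P2 n m, 1 / (n : ℝ) ^ B.card ≤ m := by
  have hn' : (0 : ℝ) < n := by exact_mod_cast hn
  have h1 : P2 n m = (Icc 2 (m + 1)).biUnion fun b => powersetCard b univ := by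
    ext B
    simp only [P2, mem_filter, mem_univ, true_and, mem_biUnion, mem_Icc, mem_powersetCard,
      subset_univ]
    constructor
    · intro h
      exact ⟨_, h, rfl⟩
    · rintro ⟨b, h, rfl⟩
      exact h
  rw [h1, sum_biUnion]
  · have h2 : ∀ b ∈ Icc 2 (m + 1), ∑ B ∈ powersetCard b (univ : Finset (Fin n)),
        1 / (n : ℝ) ^ B.card ≤ 1 := by
      intro b _
      have h3 : ∑ B ∈ powersetCard b (univ : Finset (Fin n)), 1 / (n : ℝ) ^ B.card =
          ∑ B ∈ powersetCard b (univ : Finset (Fin n)), 1 / (n : ℝ) ^ b :=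
        sum_congr rfl fun B hB => by rw [(mem_powersetCard.1 hB).2]
      rw [h3, sum_const, card_powersetCard, card_univ, Fintype.card_fin, nsmul_eq_mul,
        mul_one_div, div_le_one (by positivity)]
      exact_mod_cast Nat.choose_le_pow n b
    have h4 := sum_le_card_nsmul (Icc 2 (m + 1)) (fun b =>
      ∑ B ∈ powersetCard b (univ : Finset (Fin n)), 1 / (n : ℝ) ^ B.card) 1 h2
    refine h4.trans ?_
    rw [nsmul_eq_mul, mul_one, Nat.card_Icc]
    exact_mod_cast (by omega : m + 1 + 1 - 2 ≤ m)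
  · intro b _ b' _ hbb
    change Disjoint (powersetCard b univ) (powersetCard b' univ)
    rw [Finset.disjoint_left]
    intro A hA hA'
    exact hbb ((mem_powersetCard.1 hA).2.symm.trans (mem_powersetCard.1 hA').2)

theorem step_all (hN : S_NEAR) (hL : S_LOW) (hNUM : S_NUM) :
    ∃ n₀ : ℕ, ∀ n m : ℕ, n₀ ≤ n → 1 ≤ m → m ^ 13 ≤ n → ∀ T F : PhyloTree n,
      (FQ T F m).card ≤ (FQ T F (m + 1)).card := by
  obtain ⟨n₀, hNUM⟩ := hNUM
  refine ⟨max n₀ 1, fun n m hn hm hmn T F => ?_⟩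
  have hn1 : 1 ≤ n := by omega
  have hnR : (0 : ℝ) < n := by exact_mod_cast hn1
  have hmR : (0 : ℝ) < m := by exact_mod_cast hm
  have hex : ∀ Q : Finset (Finset (Fin n)), ∃ t : Finset (Fin n) × Finset (Fin n) × Finset (Fin n),
      IsFam T F m Q → Cell T F Q t.1 t.2.1 t.2.2 ∧ n ≤ m ^ 2 * t.2.2.card + 2 * m := by
    intro Q
    by_cases h : IsFam T F m Q
    · obtain ⟨B, B', L, h1, h2⟩ := exists_cell hN T F m hm Q h
      exact ⟨(B, B', L), fun _ => ⟨h1, h2⟩⟩
    · exact ⟨(∅, ∅, ∅), fun h' => absurd h' h⟩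
  choose t ht using hex
  let N' : ℝ := (FQ T F (m + 1)).card
  have hN' : 0 ≤ N' := Nat.cast_nonneg _
  -- the bound for fixed `B`, `B'`
  have hfix : ∀ p ∈ P2 n m ×ˢ P2 n m,
      (((FQ T F m).filter fun Q => ((t Q).1, (t Q).2.1) = p).card : ℝ) ≤
        N' * ((if p.1 = p.2 then 1 / (2 * m) * (1 / (n : ℝ) ^ p.1.card) else 0) +
          1 / (2 * m ^ 2) * (1 / (n : ℝ) ^ p.1.card * (1 / (n : ℝ) ^ p.2.card))) := by
    rintro ⟨B, B'⟩ hp
    let S := (FQ T F m).filter fun Q => ((t Q).1, (t Q).2.1) = (B, B')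
    change (S.card : ℝ) ≤ _
    have hSm : ∀ Q ∈ S, IsFam T F m Q ∧ Cell T F Q B B' (t Q).2.2 ∧
        n ≤ m ^ 2 * (t Q).2.2.card + 2 * m := by
      intro Q hQ
      have h1 := mem_filter.1 hQ
      have h2 : IsFam T F m Q := (mem_filter.1 h1.1).2
      have h3 := ht Q h2
      have h4 : (t Q).1 = B := congrArg Prod.fst h1.2
      have h5 : (t Q).2.1 = B' := congrArg Prod.snd h1.2
      rw [h4, h5] at h3
      exact ⟨h2, h3⟩
    rcases S.eq_empty_or_nonempty with h0 | ⟨Q0, hQ0⟩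
    · rw [h0, card_empty, Nat.cast_zero]
      have : (0 : ℝ) ≤ if B = B' then 1 / (2 * m) * (1 / (n : ℝ) ^ B.card) else 0 := by
        split_ifs <;> positivity
      positivity
    · obtain ⟨hF0, hC0, -⟩ := hSm Q0 hQ0
      have hB2 : 2 ≤ B.card := hF0.1 B hC0.1
      have hB2' : 2 ≤ B'.card := hF0.1 B' hC0.2.1
      have hsub : ({B, B'} : Finset (Finset (Fin n))) ⊆ Q0 := by
        intro A hA
        rw [mem_insert, mem_singleton] at hA
        rcases hA with rfl | rfl
        · exact hC0.1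
        · exact hC0.2.1
      have hem : ex B B' ≤ m := by
        rw [← hF0.2.1]
        exact sum_le_sum_of_subset hsub
      have he1 : B = B' → ex B B' + 1 = B.card := by
        intro h
        subst h
        simp only [ex, pair_eq_singleton, sum_singleton]
        omega
      have he2 : B ≠ B' → ex B B' + 2 = B.card + B'.card := by
        intro h
        simp only [ex, sum_pair h]
        omega
      have he : 1 ≤ ex B B' := by
        by_cases h : B = B'
        · have := he1 h; omega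
        · have := he2 h; omega
      have hchoose : (0 : ℝ) < ((m + 1).choose (ex B B' + 1) : ℝ) := by
        exact_mod_cast Nat.choose_pos (by omega)
      have hfac : (0 : ℝ) < ((ex B B' + 1).factorial : ℝ) := by
        exact_mod_cast Nat.factorial_pos _
      have hlow : ∀ Q ∈ S, ∀ X : ℝ,
          (∀ s : ℕ, 1 ≤ s → ((m + 1).choose (ex B B' + 1) : ℝ) * (ex B B' + 1).factorial *
            (2 * m) * (n : ℝ) ^ (ex B B' + 1) ≤ ((s : ℝ) ^ 2 / 8) ^ (ex B B' + 1) →
            (2 ≤ ex B B' → ((m + 1).choose (ex B B' + 1) : ℝ) * (ex B B' + 1).factorial *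
            (2 * m ^ 2) * (n : ℝ) ^ (ex B B' + 2) ≤ ((s : ℝ) ^ 2 / 8) ^ (ex B B' + 1)) →
            X * (ex B B' + 1).factorial ≤ ((s : ℝ) ^ 2 / 8) ^ (ex B B' + 1)) →
          X ≤ {R | IsTF T F (ex B B' + 1) R ∧ ∀ A ∈ R, A ⊆ (t Q).2.2}.ncard := by
        intro Q hQ X hX
        obtain ⟨-, hc, hz⟩ := hSm Q hQ
        have hzn : (t Q).2.2.card ≤ n := by
          have := card_le_univ (t Q).2.2
          rwa [Fintype.card_fin] at this
        obtain ⟨s, hs1, hs2, hs3, hs4, hs5⟩ := hNUM n m (ex B B') (t Q).2.2.card (by omega) hm hmn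
          he hem hz hzn
        have h1 := hL n (ex B B' + 1) s T F (t Q).2.2 hs1 hs2 hs3
        have h2 := hX s hs1 hs4 hs5
        refine le_trans ?_ h1
        rw [le_div_iff₀ hfac]
        exact h2
      by_cases hBB : B = B'
      · have hM := count_fixed B B' S (fun Q => (t Q).2.2) (fun Q hQ => ⟨(hSm Q hQ).1, (hSm Q hQ).2.1⟩)
          (((m + 1).choose (ex B B' + 1) : ℝ) * (2 * m * (n : ℝ) ^ (ex B B' + 1)))
          (fun Q hQ => hlow Q hQ _ fun s _ h1 _ => by
            refine le_trans (le_of_eq ?_) h1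
            ring)
        have h1 : 2 * m * (n : ℝ) ^ (ex B B' + 1) * S.card ≤ N' := by
          have h2 : ((m + 1).choose (ex B B' + 1) : ℝ) * (2 * m * (n : ℝ) ^ (ex B B' + 1) * S.card) ≤
              ((m + 1).choose (ex B B' + 1) : ℝ) * N' := by
            calc _ = ((m + 1).choose (ex B B' + 1) : ℝ) * (2 * m * (n : ℝ) ^ (ex B B' + 1)) *
                  S.card := by ring
              _ ≤ _ := hM
              _ = _ := by simp only [N']; ring
          exact le_of_mul_le_mul_left h2 hchoose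
        rw [he1 hBB] at h1
        have h3 : (0 : ℝ) < 2 * m * (n : ℝ) ^ B.card := by positivity
        have h4 : (S.card : ℝ) ≤ N' * (1 / (2 * m) * (1 / (n : ℝ) ^ B.card)) := by
          have : N' * (1 / (2 * m) * (1 / (n : ℝ) ^ B.card)) = N' / (2 * m * (n : ℝ) ^ B.card) := by
            field_simp
          rw [this, le_div_iff₀ h3]
          calc _ = 2 * m * (n : ℝ) ^ B.card * S.card := by ring
            _ ≤ N' := h1
        refine h4.trans ?_
        apply mul_le_mul_of_nonneg_left _ hN'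
        simp only [hBB, if_true]
        have : (0 : ℝ) ≤ 1 / (2 * m ^ 2) * (1 / (n : ℝ) ^ B'.card * (1 / (n : ℝ) ^ B'.card)) := by
          positivity
        linarith
      · have hM := count_fixed B B' S (fun Q => (t Q).2.2) (fun Q hQ => ⟨(hSm Q hQ).1, (hSm Q hQ).2.1⟩)
          (((m + 1).choose (ex B B' + 1) : ℝ) * (2 * m ^ 2 * (n : ℝ) ^ (ex B B' + 2)))
          (fun Q hQ => hlow Q hQ _ fun s _ _ h1 => by
            refine le_trans (le_of_eq ?_) (h1 (by have := he2 hBB; omega))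
            ring)
        have h1 : 2 * m ^ 2 * (n : ℝ) ^ (ex B B' + 2) * S.card ≤ N' := by
          have h2 : ((m + 1).choose (ex B B' + 1) : ℝ) *
              (2 * m ^ 2 * (n : ℝ) ^ (ex B B' + 2) * S.card) ≤
              ((m + 1).choose (ex B B' + 1) : ℝ) * N' := by
            calc _ = ((m + 1).choose (ex B B' + 1) : ℝ) * (2 * m ^ 2 * (n : ℝ) ^ (ex B B' + 2)) *
                  S.card := by ring
              _ ≤ _ := hM
              _ = _ := by simp only [N']; ring
          exact le_of_mul_le_mul_left h2 hchoose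
        rw [he2 hBB, pow_add] at h1
        have h3 : (0 : ℝ) < 2 * m ^ 2 * ((n : ℝ) ^ B.card * (n : ℝ) ^ B'.card) := by positivity
        have h4 : (S.card : ℝ) ≤
            N' * (1 / (2 * m ^ 2) * (1 / (n : ℝ) ^ B.card * (1 / (n : ℝ) ^ B'.card))) := by
          have : N' * (1 / (2 * m ^ 2) * (1 / (n : ℝ) ^ B.card * (1 / (n : ℝ) ^ B'.card))) =
              N' / (2 * m ^ 2 * ((n : ℝ) ^ B.card * (n : ℝ) ^ B'.card)) := by
            field_simp
          rw [this, le_div_iff₀ h3]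
          calc _ = 2 * m ^ 2 * ((n : ℝ) ^ B.card * (n : ℝ) ^ B'.card) * S.card := by ring
            _ ≤ N' := h1
        refine h4.trans ?_
        apply mul_le_mul_of_nonneg_left _ hN'
        simp only [hBB, if_false, zero_add]
        exact le_rfl
  -- summing
  have hmaps : ∀ Q ∈ FQ T F m, ((t Q).1, (t Q).2.1) ∈ P2 n m ×ˢ P2 n m := by
    intro Q hQ
    have h1 : IsFam T F m Q := (mem_filter.1 hQ).2
    have h2 := (ht Q h1).1
    have h3 : ∀ B ∈ Q, B ∈ P2 n m := by
      intro B hB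
      have h4 := h1.1 B hB
      have h5 : B.card - 1 ≤ m := by
        rw [← h1.2.1]
        exact single_le_sum (f := fun A : Finset (Fin n) => A.card - 1) (fun _ _ => Nat.zero_le _) hB
      exact mem_filter.2 ⟨mem_univ _, h4, by omega⟩
    exact mem_product.2 ⟨h3 _ h2.1, h3 _ h2.2.1⟩
  have hcard := card_eq_sum_card_fiberwise (s := FQ T F m) (t := P2 n m ×ˢ P2 n m)
    (f := fun Q => ((t Q).1, (t Q).2.1)) (fun Q hQ => hmaps Q hQ)
  have hsum : ((FQ T F m).card : ℝ) ≤ N' := by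
    rw [hcard]
    push_cast
    refine (sum_le_sum hfix).trans ?_
    rw [← mul_sum, sum_add_distrib]
    have hx := sum_P2 (n := n) m hn1
    have hx0 : 0 ≤ ∑ B ∈ P2 n m, 1 / (n : ℝ) ^ B.card := sum_nonneg fun _ _ => by positivity
    have e1 : ∑ p ∈ P2 n m ×ˢ P2 n m,
        (if p.1 = p.2 then 1 / (2 * (m : ℝ)) * (1 / (n : ℝ) ^ p.1.card) else 0) =
        1 / (2 * m) * ∑ B ∈ P2 n m, 1 / (n : ℝ) ^ B.card := by
      rw [sum_product, mul_sum]
      refine sum_congr rfl fun B hB => ?_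
      rw [sum_ite_eq, if_pos hB]
    have e2 : ∑ p ∈ P2 n m ×ˢ P2 n m,
        1 / (2 * (m : ℝ) ^ 2) * (1 / (n : ℝ) ^ p.1.card * (1 / (n : ℝ) ^ p.2.card)) =
        1 / (2 * m ^ 2) * ((∑ B ∈ P2 n m, 1 / (n : ℝ) ^ B.card) *
          ∑ B ∈ P2 n m, 1 / (n : ℝ) ^ B.card) := by
      rw [← mul_sum, sum_mul_sum, sum_product]
    rw [e1, e2]
    have e3 : 1 / (2 * (m : ℝ)) * ∑ B ∈ P2 n m, 1 / (n : ℝ) ^ B.card ≤ 1 / 2 := by
      calc _ ≤ 1 / (2 * (m : ℝ)) * m := mul_le_mul_of_nonneg_left hx (by positivity)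
        _ = 1 / 2 := by field_simp
    have e4 : 1 / (2 * (m : ℝ) ^ 2) * ((∑ B ∈ P2 n m, 1 / (n : ℝ) ^ B.card) *
          ∑ B ∈ P2 n m, 1 / (n : ℝ) ^ B.card) ≤ 1 / 2 := by
      calc _ ≤ 1 / (2 * (m : ℝ) ^ 2) * (m * m) :=
            mul_le_mul_of_nonneg_left (mul_le_mul hx hx hx0 hmR.le) (by positivity)
        _ = 1 / 2 := by field_simp
    calc _ ≤ N' * (1 / 2 + 1 / 2) := mul_le_mul_of_nonneg_left (add_le_add e3 e4) hN'
      _ = N' := by ring
  have hsum' : ((FQ T F m).card : ℝ) ≤ ((FQ T F (m + 1)).card : ℝ) := hsum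
  exact_mod_cast hsum'

end Pool.Agent.V7H41.CD
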