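import Pool.Agent.V7H41.CC.Tail
import Pool.Agent.V7H41.CD.Main

set_option autoImplicit false

open Finset

namespace Pool.Agent.V7H41.CD

open Pool.Agent.V7H41.CC

theorem tail_all (hSI : S_SINGLE) (hFAM : S_FAM) (hN : S_NEAR) (hL : S_LOW) (hNUM : S_NUM) :
    S_TAILALL := by
  obtain ⟨n₀, h⟩ := step_all hN hL hNUM
  refine ⟨max n₀ (2 ^ 13 + 2), fun n m hn hmn T F => ?_⟩
  have hn4 : 2 ^ 13 + 2 ≤ n := by omega
  rcases Nat.eq_zero_or_pos m with h0 | h0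
  · subst h0
    have h1 := common_self_le n T F
    have h2 := hSI n 1 T F le_rfl (by omega)
    have h3 : 0 < n.choose (1 + 1) := Nat.choose_pos (by omega)
    simp only [Nat.sub_zero, zero_add]
    omega
  · have hlt : m + 1 ≤ n := by
      rcases Nat.lt_or_ge m 2 with h2 | h2
      · omega
      · have h3 : m ^ 2 ≤ m ^ 13 := Nat.pow_le_pow_right (by omega) (by norm_num)
        have h4 : m + 1 ≤ m ^ 2 := by nlinarith
        omega
    have e : ∀ j, {Q | IsFam T F j Q}.ncard = (FQ T F j).card := by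
      intro j
      rw [← Set.ncard_coe_finset]
      congr 1
      ext Q
      simp [FQ]
    rw [hFAM n m T F (by omega), hFAM n (m + 1) T F hlt, e, e]
    exact h n m (by omega) h0 hmn T F

theorem bulk_final (hSI : S_SINGLE) (hCONC : S_CONC) (hAVG : S_AVG) (hAVB : S_AVB)
    (hUNI : S_UNI) (hA97 : S_AVB97) (hS97 : S_STEP97) (hTA : S_TAILALL) :
    ∃ n₀ : ℕ, ∃ C : ℝ, ∀ n : ℕ, n₀ ≤ n →
      (∀ a : ℕ → ℕ, (a = c n ∨ a = s n) →
        (∀ k, 1 ≤ k → k < n → 97 ^ 2 * n ≤ (100 * (n - k)) ^ 2 →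
          (n.choose (k - 1) : ℝ) ≤ a k ∧
          (a k : ℝ) ≤ n.choose (k - 1) * (1 + C * (n : ℝ) / ((n - k : ℕ) : ℝ) ^ 3)) ∧
        (∃ p, n ≤ 2 * p ∧ 2 * p ≤ n + 3 ∧ (∀ j k, 1 ≤ j → j ≤ k → k ≤ p → a j ≤ a k) ∧
          (∀ j k, p ≤ j → j ≤ k → k < n → 97 ^ 2 * n ≤ (100 * (n - k)) ^ 2 → a k ≤ a j)) ∧
        (∀ k, k < n → (n - k) ^ 13 ≤ n → a (k + 1) ≤ a k) ∧
        (∀ k, 2 ≤ k → k < n → 400 * n ≤ (n - k) ^ 2 → a (k - 1) * a (k + 1) ≤ a k ^ 2)) ∧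
      ∀ (T F : PhyloTree n) (k : ℕ), k < n → (n - k) ^ 13 ≤ n →
        common T F (k + 1) ≤ common T F k := by
  obtain ⟨n1, C, h1⟩ := bulk hSI hCONC hAVG hAVB hUNI hA97 hS97
  obtain ⟨n2, h2⟩ := hTA
  have key : ∀ n : ℕ, n2 ≤ n → ∀ (T F : PhyloTree n) (k : ℕ), k < n → (n - k) ^ 13 ≤ n →
      common T F (k + 1) ≤ common T F k := by
    intro n hn T F k hk hkn
    obtain ⟨m, hm⟩ : ∃ m, k + 1 + m = n := ⟨n - (k + 1), by omega⟩
    have h3 : m ^ 13 ≤ n := le_trans (Nat.pow_le_pow_left (by omega) 13) hkn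
    have h4 := h2 n m hn h3 T F
    have e1 : n - m = k + 1 := by omega
    have e2 : n - (m + 1) = k := by omega
    rw [e1, e2] at h4
    exact h4
  refine ⟨max (max n1 n2) 4, C, fun n hn => ⟨fun a ha => ?_, key n (by omega)⟩⟩
  obtain ⟨a1, a2, a3⟩ := h1 n (by omega) a ha
  refine ⟨a1, a2, fun k hk hkn => ?_, a3⟩
  rcases ha with rfl | rfl
  · obtain ⟨T, F, hT, hF, h⟩ := c_mem hCONC n k (by omega)
    rw [h]
    refine le_trans ?_ (key n (by omega) T F k hk hkn)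
    exact Nat.sInf_le ⟨T, F, hT, hF, rfl⟩
  · obtain ⟨T, F, h⟩ := s_mem hCONC n k (by omega)
    rw [h]
    refine le_trans ?_ (key n (by omega) T F k hk hkn)
    exact Nat.sInf_le ⟨T, F, rfl⟩

end Pool.Agent.V7H41.CD
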