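import Pool.Agent.V7H41.CC.Spec4

/-!
# Near the end the number of common convex partitions is monotone, for every pair of trees
-/

open Finset

namespace Pool.Agent.V7H41.CD

open Pool.Agent.V7H41.CC

/-- The families of the classes of size at least two of the partitions with `n - m` classes which
are convex on both trees. -/
def IsFam {n : ℕ} (T F : PhyloTree n) (m : ℕ) (Q : Finset (Finset (Fin n))) : Prop :=
  (∀ A ∈ Q, 2 ≤ A.card) ∧ ∑ A ∈ Q, (A.card - 1) = m ∧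
    ∀ A ∈ Q, ∀ B ∈ Q, A ≠ B → Disjoint (T.span A) (T.span B) ∧ Disjoint (F.span A) (F.span B)

/-- (FAM) -/
def S_FAM : Prop := ∀ (n m : ℕ) (T F : PhyloTree n), m ≤ n →
  common T F (n - m) = {Q | IsFam T F m Q}.ncard

/-- (NEAR) for every leaf `z` a nearest class `f z`. -/
def S_NEAR : Prop := ∀ (n : ℕ) (T : PhyloTree n) (Q : Finset (Finset (Fin n))), Q.Nonempty →
  (∀ A ∈ Q, A.Nonempty) → (∀ A ∈ Q, ∀ B ∈ Q, A ≠ B → Disjoint (T.span A) (T.span B)) →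
  ∃ f : Fin n → Finset (Fin n), (∀ z, f z ∈ Q) ∧
    ∀ B D : Finset (Fin n), (∀ z ∈ D, f z = B) → ∀ C ∈ Q, C ≠ B →
      Disjoint (T.span D) (T.span C)

/-- (LOW) many systems of pairs inside a set `L` of leaves. -/
def S_LOW : Prop := ∀ (n m s : ℕ) (T F : PhyloTree n) (L : Finset (Fin n)), 1 ≤ s →
  16 * s * (m + 1) ≤ L.card → 4 * L.card ≤ s ^ 2 →
  ((s : ℝ) ^ 2 / 8) ^ m / m.factorial ≤ {Q | IsTF T F m Q ∧ ∀ A ∈ Q, A ⊆ L}.ncard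

/-- (NUM) -/
def S_NUM : Prop := ∃ n₀ : ℕ, ∀ n m e z : ℕ, n₀ ≤ n → 1 ≤ m → m ^ 13 ≤ n → 1 ≤ e → e ≤ m →
  n ≤ m ^ 2 * z + 2 * m → z ≤ n → ∃ s : ℕ, 1 ≤ s ∧ 16 * s * (e + 2) ≤ z ∧ 4 * z ≤ s ^ 2 ∧
    ((m + 1).choose (e + 1) : ℝ) * (e + 1).factorial * (2 * m) * (n : ℝ) ^ (e + 1) ≤
      ((s : ℝ) ^ 2 / 8) ^ (e + 1) ∧
    (2 ≤ e → ((m + 1).choose (e + 1) : ℝ) * (e + 1).factorial * (2 * m ^ 2) * (n : ℝ) ^ (e + 2) ≤
      ((s : ℝ) ^ 2 / 8) ^ (e + 1))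

/-- the final statement: for every pair of trees -/
def S_TAILALL : Prop := ∃ n₀ : ℕ, ∀ n m : ℕ, n₀ ≤ n → m ^ 13 ≤ n → ∀ T F : PhyloTree n,
  common T F (n - m) ≤ common T F (n - (m + 1))

end Pool.Agent.V7H41.CD
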